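import Pool.Agent.LightTri.Extremal

/-!
# The optimal coefficient of `f₅₅₇` is 5

Problem MP_28dc4a_co, question Q1: the least admissible value is `c* = 5`.
Upper bound: a discharging argument, corner by corner, valid for all plane graphs with minimum degree five
(connected or not). Lower bound: a plane triangulation with 114 vertices, minimum degree five,
`f₅₅₅ = f₅₅₆ = 0`, `f₅₅₇ = 16` and `f₅₆₆ = 16`, for which the inequality with `c = 5` is an equality.
-/

set_option autoImplicit false

namespace Pool.Agent.Results.MP_28dc4a_co.OptimalFive

/-- The least real number `c` such that all plane graphs with minimum degree five satisfy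
`18 f₅₅₅ + 9 f₅₅₆ + c f₅₅₇ + 4 f₅₆₆ ≥ 144` is `c* = 5`. -/
theorem result : IsLeast {c : ℝ | Pool.Agent.LightTri.Admissible c} 5 :=
  ⟨Pool.Agent.LightTri.admissible_five, fun _ hc => Pool.Agent.LightTri.lower hc⟩

end Pool.Agent.Results.MP_28dc4a_co.OptimalFive
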